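import Mathlib
import Pool.Agent.LexCyc.Lang

/-!
# Stable matching with lexicographically cyclic preferences is NP-hard

Polynomial-time many-one reduction from graph 3-colourability.
-/

namespace Pool.Agent.Results.MP_28d887_lc.LexCyclicNPHard

open Pool.Agent.LexCyc

/-- There is a polynomial-time computable function `f` on bit strings (polynomial time in the sense
of Mathlib's Turing machines with stacks) such that a bit string `x` is the adjacency matrix of a
3-colourable graph if and only if `f x` encodes a lexicographically cyclic instance of size at
least three that has a stable matching. -/
theorem result : ∃ f : List Bool → List Bool,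
    Nonempty (Turing.TM2ComputableInPolyTime (id : List Bool → List Bool)
      (id : List Bool → List Bool) f) ∧
    ∀ x : List Bool, x ∈ ThreeCol ↔ f x ∈ LexStable :=
  ⟨red, red_polyTime, red_correct⟩

end Pool.Agent.Results.MP_28d887_lc.LexCyclicNPHard
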